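import Pool.Agent.H26.GalvinCore

set_option autoImplicit false

universe u

namespace Pool.Agent.Results.MP_a3089e_lc.FailsAtDoubleSucc

open Cardinal Pool.Agent.H26.Galvin

/-- (ZFC, no cardinal arithmetic.)  For every uncountable cardinal `κ`, no fine normal
ultrafilter `U` over `P_κ(κ⁺)` satisfies `Gal(U, κ, κ⁺⁺)`. -/
theorem result (κ : Cardinal.{u}) (X : Type u) (hκ : ℵ₀ < κ) (hX : #X = Order.succ κ)
    (U : Ultrafilter (PK κ X)) (hU : IsFineNormal κ X U) :
    ¬ Gal (U : Filter (PK κ X)) κ (Order.succ (Order.succ κ)) :=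
  not_gal_succ_succ hκ.le hX hU

end Pool.Agent.Results.MP_a3089e_lc.FailsAtDoubleSucc
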