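import Pool.Agent.H26.GalvinCore

set_option autoImplicit false

universe u

namespace Pool.Agent.Results.MP_a3089e_lc.FailsIfTwoPowSmall

open Cardinal Pool.Agent.H26.Galvin

/-- For every uncountable cardinal `κ` with `2 ^ κ ≤ κ⁺⁺`, no fine normal ultrafilter `U` over
`P_κ(κ⁺)` satisfies `Gal(U, κ, 2 ^ (κ⁺))`. -/
theorem result (κ : Cardinal.{u}) (X : Type u) (hκ : ℵ₀ < κ) (hX : #X = Order.succ κ)
    (h2 : (2 : Cardinal.{u}) ^ κ ≤ Order.succ (Order.succ κ))
    (U : Ultrafilter (PK κ X)) (hU : IsFineNormal κ X U) :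
    ¬ Gal (U : Filter (PK κ X)) κ (2 ^ Order.succ κ) :=
  not_gal_two_power_succ hκ.le hX hU
    (fun h => not_gal_succ_succ hκ.le hX hU (h.mono h2))

end Pool.Agent.Results.MP_a3089e_lc.FailsIfTwoPowSmall
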