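import Pool.Agent.H26.GalvinCore

set_option autoImplicit false

universe u

namespace Pool.Agent.Results.MP_a3089e_lc.ReducesToTwoPow

open Cardinal Pool.Agent.H26.Galvin

/-- (ZFC, no cardinal arithmetic.)  For every uncountable cardinal `κ` and every fine normal
ultrafilter `U` over `P_κ(κ⁺)`, the property `Gal(U, κ, 2 ^ (κ⁺))` asked for in the question is
equivalent to the formally stronger property `Gal(U, κ, 2 ^ κ)`. -/
theorem result (κ : Cardinal.{u}) (X : Type u) (hκ : ℵ₀ < κ) (hX : #X = Order.succ κ)
    (U : Ultrafilter (PK κ X)) (hU : IsFineNormal κ X U) :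
    Gal (U : Filter (PK κ X)) κ (2 ^ Order.succ κ) ↔ Gal (U : Filter (PK κ X)) κ (2 ^ κ) := by
  constructor
  · intro h
    by_contra hcon
    exact not_gal_two_power_succ hκ.le hX hU hcon h
  · intro h
    exact h.mono (Cardinal.power_le_power_left two_ne_zero (Order.le_succ κ))

end Pool.Agent.Results.MP_a3089e_lc.ReducesToTwoPow
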